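import Pool.Agent.W2helper22.MG.Stm

/-!
Project MG, piece COPY: substitution of inputs in straight-line programs.
-/

set_option autoImplicit false

namespace Pool.Agent.W2helper60.MG

open Finset Filter Pool.Agent.W2helper86.LG Pool.Agent.W2helper22.AL Pool.Agent.W2helper22.MG

/-- the function with its inputs substituted -/
def sb {I J : Type} (π : I → J) (q : ((I → Bool) → Bool) × ℕ) : ((J → Bool) → Bool) × ℕ :=
  (fun x => q.1 (fun i => x (π i)), q.2)

theorem prog_sb {I J : Type} (π : I → J) {L : List (((I → Bool) → Bool) × ℕ)} {c : ℕ → ℕ}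
    {L' : List (((J → Bool) → Bool) × ℕ)} {c' : ℕ → ℕ} (h : Prog L c) (h' : Prog L' c') :
    Prog (L.map (sb π) ++ L') (fun l => c l + c' l) := by
  have hm : ∀ (L : List (((I → Bool) → Bool) × ℕ)) (q : ((I → Bool) → Bool) × ℕ), q ∈ L →
      sb π q ∈ L.map (sb π) ++ L' := fun L q hq =>
    List.mem_append_left _ (List.mem_map_of_mem hq)
  induction h with
  | nil =>
    have e : (fun l => 0 + c' l) = c' := by
      funext l
      exact Nat.zero_add _
    rw [e]
    exact h'
  | inp p l _ ih => exact Prog.inp (π p) l ih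
  | const b l _ ih => exact Prog.const b l ih
  | and l _ hf hg hi hj ih => exact Prog.and l ih (hm _ _ hf) (hm _ _ hg) hi hj
  | or l _ hf hg hi hj ih => exact Prog.or l ih (hm _ _ hf) (hm _ _ hg) hi hj
  | @not L c f i l _ hf hi ih =>
    have h1 := Prog.not l ih (hm _ _ hf) hi
    have e : (fun k => Function.update c l (c l + 1) k + c' k) =
        Function.update (fun k => c k + c' k) l (c l + c' l + 1) := by
      funext k
      by_cases hk : k = l
      · subst hk
        rw [Function.update_self, Function.update_self]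
        omega
      · rw [Function.update_of_ne hk, Function.update_of_ne hk]
    rw [e]
    exact h1

theorem copy : P_COPY := by
  intro I J s s' F F' π hF hF'
  obtain ⟨L, c, h1, h2, h3, h4, h5⟩ := hF
  obtain ⟨L', c', h1', h2', h3', h4', h5'⟩ := hF'
  refine ⟨L.map (sb π) ++ L', fun l => c l + c' l, prog_sb π h1 h1', ?_, ?_, ?_, ?_⟩
  · intro q hq
    rcases List.mem_append.1 hq with hq | hq
    · obtain ⟨q', hq', rfl⟩ := List.mem_map.1 hq
      exact h2 q' hq'
    · exact h2' q hq
  · rw [List.length_append, List.length_map]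
    omega
  · intro l
    have e1 : c l ≤ 0 := h4 l
    have e2 : c' l ≤ 0 := h4' l
    show c l + c' l ≤ 0
    omega
  · rintro ⟨f, k⟩ ⟨hf, hk⟩
    have hk0 : k = 0 := hk
    subst hk0
    rcases hf with hf | ⟨g, hg, hfg⟩
    · obtain ⟨i, hi, hiL⟩ := h5' (f, 0) ⟨hf, rfl⟩
      exact ⟨i, hi, List.mem_append_right _ hiL⟩
    · obtain ⟨i, hi, hiL⟩ := h5 (g, 0) ⟨hg, rfl⟩
      refine ⟨i, hi, List.mem_append_left _ ?_⟩
      have h6 := List.mem_map_of_mem (f := sb π) hiL
      have e : f = fun x => g (fun i => x (π i)) := hfg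
      rw [e]
      exact h6

end Pool.Agent.W2helper60.MG
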